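import Mathlib

/-!
# Lazy cops and robbers: a graph on `n < k ^ 2` vertices with lazy cop number larger than `k`

The graph is the incidence graph of the points of `F ^ 3` (`F` the field with 37 elements) and the
lines with a direction `(1, t, t ^ 2)`: it is bipartite, 37-regular, connected and has no cycles of
length 4 or 6. On such a graph the robber evades many lazy cops by keeping the following invariant
at each turn of the cops: no cop is at distance at most 1, and at most 18 cops are at distance 2.
-/

set_option autoImplicit false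

namespace Pool.Agent.Results.MP_9f93d5_co.Disproof

/-! ### The game -/

/-- A turn of the lazy cops: at most one cop moves, to an adjacent vertex. -/
def CopTurn {V : Type} (G : SimpleGraph V) {m : ℕ} (c c' : Fin m → V) : Prop :=
  c' = c ∨ ∃ i, G.Adj (c i) (c' i) ∧ ∀ j, j ≠ i → c' j = c j

/-- A turn of the robber: he stays or moves to an adjacent vertex. -/
def RobberTurn {V : Type} (G : SimpleGraph V) (x y : V) : Prop := y = x ∨ G.Adj x y

/-- `m` lazy cops have a winning strategy on `G`. A strategy `σ` gives the positions of the cops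
after each of their turns as a function of the list of the positions the robber has been at (in the
order of time); for the empty list it gives the initial positions of the cops. The strategy wins if
for every play `r 0, r 1, ...` of the robber, at some time `t` a cop occupies the vertex of the
robber, either after the robber's turn which brought him to `r t` or after the next turn of the
cops. -/
def LazyCopsWin {V : Type} (G : SimpleGraph V) (m : ℕ) : Prop :=
  ∃ σ : List V → Fin m → V, (∀ h x, CopTurn G (σ h) (σ (h ++ [x]))) ∧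
    ∀ r : ℕ → V, (∀ t, RobberTurn G (r t) (r (t + 1))) →
      ∃ (t : ℕ) (i : Fin m), σ ((List.range t).map r) i = r t ∨
        σ ((List.range (t + 1)).map r) i = r t

/-- The lazy cop number. -/
noncomputable def lazyCopNumber {V : Type} (G : SimpleGraph V) : ℕ :=
  sInf {m | 1 ≤ m ∧ LazyCopsWin G m}

/-- Cops on all vertices win. -/
lemma lazyCopsWin_card (n : ℕ) (G : SimpleGraph (Fin n)) : LazyCopsWin G n :=
  ⟨fun _ i => i, fun _ _ => Or.inl rfl, fun r _ => ⟨0, r 0, Or.inl rfl⟩⟩

/-! ### The strategy of the robber -/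

section Strategy

open Classical in
/-- the neighbours of a vertex -/
noncomputable def N {V : Type} [Fintype V] (G : SimpleGraph V) (v : V) : Finset V :=
  Finset.univ.filter (fun u => G.Adj v u)

/-- the properties of the graph used -/
structure Nice {V : Type} [Fintype V] (G : SimpleGraph V) (q : ℕ) (side : V → Bool) : Prop where
  side : ∀ a b, G.Adj a b → side a ≠ side b
  h4 : ∀ v w u u', G.Adj v u → G.Adj v u' → G.Adj w u → G.Adj w u' → v ≠ w → u = u'
  h6 : ∀ v w w' u u' x, v ≠ w → v ≠ w' → w ≠ w' → u ≠ u' → u ≠ x → u' ≠ x →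
    G.Adj v u → G.Adj w u → G.Adj w x → G.Adj w' x → G.Adj w' u' → G.Adj v u' → False
  deg : ∀ v, (N G v).card = q

variable {V : Type} [Fintype V] (G : SimpleGraph V)

/-- there is a walk of length two between different vertices -/
def S (v x : V) : Prop := x ≠ v ∧ ∃ w, G.Adj v w ∧ G.Adj w x

/-- a vertex or one of its neighbours -/
def Near (v x : V) : Prop := x = v ∨ G.Adj v x

open Classical in
/-- the invariant -/
def Inv {m : ℕ} (T : ℕ) (c : Fin m → V) (v : V) : Prop :=
  (∀ i, c i ≠ v ∧ ¬ G.Adj v (c i)) ∧
    (Finset.univ.filter (fun i => S G v (c i))).card ≤ T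

variable {G}

open Classical in
/-- one turn of the cops followed by one turn of the robber -/
lemma step {q : ℕ} {side : V → Bool} (hG : Nice G q side) {m T : ℕ}
    (hm : m < T * (q - (T + 1))) {c c' : Fin m → V} {v : V} (hInv : Inv G T c v)
    (hc : CopTurn G c c') : (∀ i, c' i ≠ v) ∧ ∃ u, G.Adj v u ∧ Inv G T c' u := by
  obtain ⟨h1, h2⟩ := hInv
  -- the cop which has moved
  obtain ⟨J, hJ, hJc, hmv⟩ : ∃ J : Finset (Fin m), J.card ≤ 1 ∧ (∀ i, i ∉ J → c' i = c i) ∧
      ∀ i, c' i = c i ∨ G.Adj (c i) (c' i) := by
    rcases hc with rfl | ⟨j, hj, hj'⟩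
    · exact ⟨∅, by simp, fun i _ => rfl, fun i => Or.inl rfl⟩
    · refine ⟨{j}, by simp, fun i hi => hj' i (by simpa using hi), fun i => ?_⟩
      by_cases hij : i = j
      · subst hij; exact Or.inr hj
      · exact Or.inl (hj' i hij)
  have hv : ∀ i, c' i ≠ v := by
    intro i hi
    rcases hmv i with h | h
    · exact (h1 i).1 (h ▸ hi)
    · rw [hi] at h
      exact (h1 i).2 h.symm
  refine ⟨hv, ?_⟩
  set A1 : Finset (Fin m) := Finset.univ.filter (fun i => G.Adj v (c' i)) with hA1
  have hA1J : A1 ⊆ J := by
    intro i hi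
    by_contra hiJ
    simp only [hA1, Finset.mem_filter, Finset.mem_univ, true_and] at hi
    rw [hJc i hiJ] at hi
    exact (h1 i).2 hi
  have hA1c : A1.card ≤ 1 := (Finset.card_le_card hA1J).trans hJ
  set X : Finset (Fin m) := Finset.univ.filter (fun i => G.Adj v (c' i) ∨ S G v (c' i)) with hX
  have hXc : X.card ≤ 1 + T := by
    have hsub : X ⊆ J ∪ Finset.univ.filter (fun i => S G v (c i)) := by
      intro i hi
      simp only [hX, Finset.mem_filter, Finset.mem_univ, true_and] at hi
      rw [Finset.mem_union]
      by_cases hiJ : i ∈ J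
      · exact Or.inl hiJ
      · right
        rw [hJc i hiJ] at hi
        simp only [Finset.mem_filter, Finset.mem_univ, true_and]
        exact hi.resolve_left (h1 i).2
    calc X.card ≤ _ := Finset.card_le_card hsub
      _ ≤ _ := Finset.card_union_le _ _
      _ ≤ 1 + T := Nat.add_le_add hJ h2
  set Bad : Finset V := (N G v).filter (fun u => ∃ i, c' i = u ∨ G.Adj u (c' i)) with hBad
  have hNv : ∀ u, u ∈ N G v ↔ G.Adj v u := by
    intro u; simp [N]
  have hBadc : Bad.card ≤ X.card := by
    refine Finset.card_le_card_of_forall_subsingleton (fun u i => c' i = u ∨ G.Adj u (c' i)) ?_ ?_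
    · intro u hu
      simp only [hBad, Finset.mem_filter, hNv] at hu
      obtain ⟨hvu, i, hi⟩ := hu
      refine ⟨i, ?_, hi⟩
      simp only [hX, Finset.mem_filter, Finset.mem_univ, true_and]
      rcases hi with rfl | hi
      · exact Or.inl hvu
      · exact Or.inr ⟨hv i, u, hvu, hi⟩
    · intro i _ u hu u' hu'
      simp only [Set.mem_ofPred_eq, hBad, Finset.mem_filter, hNv] at hu hu'
      obtain ⟨⟨hvu, -⟩, hiu⟩ := hu
      obtain ⟨⟨hvu', -⟩, hiu'⟩ := hu'
      have key : ∀ a b : V, G.Adj v a → G.Adj v b → ¬ G.Adj a b := by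
        intro a b ha hb hab
        have e1 := hG.side _ _ ha
        have e2 := hG.side _ _ hb
        have e3 := hG.side _ _ hab
        revert e1 e2 e3
        cases side v <;> cases side a <;> cases side b <;> simp
      rcases hiu with h | h <;> rcases hiu' with h' | h'
      · rw [← h, ← h']
      · rw [h] at h'
        exact absurd h' (key _ _ hvu' hvu)
      · rw [h'] at h
        exact absurd h (key _ _ hvu hvu')
      · exact hG.h4 v (c' i) u u' hvu hvu' h.symm h'.symm (hv i).symm
  set U : Finset V := N G v \ Bad with hU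
  have hUc : q - (T + 1) ≤ U.card := by
    have h3 : (N G v).card - Bad.card ≤ U.card := Finset.le_card_sdiff Bad (N G v)
    rw [hG.deg v] at h3
    omega
  set Y : V → Finset (Fin m) := fun u =>
    Finset.univ.filter (fun i => S G u (c' i) ∧ ¬ G.Adj v (c' i)) with hY
  have hdisj : (U : Set V).PairwiseDisjoint Y := by
    intro u hu u' hu' hne
    rw [Function.onFun, Finset.disjoint_left]
    intro i hi hi'
    simp only [hY, Finset.mem_filter, Finset.mem_univ, true_and] at hi hi'
    obtain ⟨⟨hxu, w, huw, hwx⟩, hnv⟩ := hi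
    obtain ⟨⟨hxu', w', huw', hwx'⟩, -⟩ := hi'
    have hvu : G.Adj v u := by
      have := (Finset.mem_sdiff.1 (Finset.mem_coe.1 hu)).1
      exact (hNv u).1 this
    have hvu' : G.Adj v u' := by
      have := (Finset.mem_sdiff.1 (Finset.mem_coe.1 hu')).1
      exact (hNv u').1 this
    have hvw : v ≠ w := by
      rintro rfl; exact hnv hwx
    have hvw' : v ≠ w' := by
      rintro rfl; exact hnv hwx'
    by_cases hww : w = w'
    · subst hww
      exact hne (hG.h4 v w u u' hvu hvu' huw.symm huw'.symm hvw)
    · exact hG.h6 v w w' u u' (c' i) hvw hvw' hww hne hxu.symm hxu'.symm hvu huw.symm hwx hwx'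
        huw'.symm hvu'
  obtain ⟨u, huU, hYu⟩ : ∃ u ∈ U, (Y u).card < T := by
    by_contra hcon
    push Not at hcon
    have h3 : U.card * T ≤ ∑ u ∈ U, (Y u).card := by
      have := Finset.card_nsmul_le_sum U (fun u => (Y u).card) T hcon
      simpa using this
    have h4 : ∑ u ∈ U, (Y u).card = (U.biUnion Y).card := (Finset.card_biUnion hdisj).symm
    have h5 : (U.biUnion Y).card ≤ m := by
      have := Finset.card_le_univ (U.biUnion Y)
      simpa using this
    have h6 : T * (q - (T + 1)) ≤ U.card * T := by
      rw [mul_comm]; exact Nat.mul_le_mul_right _ hUc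
    omega
  have huv : G.Adj v u := (hNv u).1 (Finset.mem_sdiff.1 huU).1
  have hnb : ¬ ∃ i, c' i = u ∨ G.Adj u (c' i) := by
    intro h
    exact (Finset.mem_sdiff.1 huU).2 (by
      simp only [hBad, Finset.mem_filter]
      exact ⟨(hNv u).2 huv, h⟩)
  refine ⟨u, huv, ?_, ?_⟩
  · intro i
    constructor
    · intro h; exact hnb ⟨i, Or.inl h⟩
    · intro h; exact hnb ⟨i, Or.inr h⟩
  · have hsub : Finset.univ.filter (fun i => S G u (c' i)) ⊆ Y u ∪ A1 := by
      intro i hi
      simp only [Finset.mem_filter, Finset.mem_univ, true_and] at hi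
      rw [Finset.mem_union]
      by_cases h : G.Adj v (c' i)
      · right; simp only [hA1, Finset.mem_filter, Finset.mem_univ, true_and]; exact h
      · left; simp only [hY, Finset.mem_filter, Finset.mem_univ, true_and]; exact ⟨hi, h⟩
    have h3 := (Finset.card_le_card hsub).trans (Finset.card_union_le _ _)
    omega

open Classical in
/-- the first turn of the robber -/
lemma start {q : ℕ} {side : V → Bool} (hG : Nice G q side) {m T : ℕ}
    (hcount : (T + 1) * (m * (q + 1)) + m * q ^ 2 < (T + 1) * Fintype.card V)
    (c : Fin m → V) : ∃ v, Inv G T c v := by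
  have swap : ∀ (R : V → V → Prop) (K : ℕ),
      (∀ x, (Finset.univ.filter (fun v => R v x)).card ≤ K) →
      ∑ v : V, (Finset.univ.filter (fun i => R v (c i))).card ≤ m * K := by
    intro R K hK
    have h1 : ∑ v : V, (Finset.univ.filter (fun i => R v (c i))).card =
        ∑ i : Fin m, (Finset.univ.filter (fun v => R v (c i))).card := by
      simp only [Finset.card_filter]
      exact Finset.sum_comm
    rw [h1]
    calc ∑ i : Fin m, (Finset.univ.filter (fun v => R v (c i))).card
        ≤ ∑ _i : Fin m, K := Finset.sum_le_sum (fun i _ => hK (c i))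
      _ = m * K := by simp
  have hs1 := swap (fun v x => Near G v x) (q + 1) (by
    intro x
    have hsub : Finset.univ.filter (fun v => Near G v x) ⊆ insert x (N G x) := by
      intro v hv
      rw [Finset.mem_insert]
      rcases (Finset.mem_filter.1 hv).2 with h | h
      · exact Or.inl h.symm
      · right; simp only [N, Finset.mem_filter, Finset.mem_univ, true_and]; exact h.symm
    calc _ ≤ _ := Finset.card_le_card hsub
      _ ≤ _ := Finset.card_insert_le _ _
      _ = q + 1 := by rw [hG.deg])
  have hs2 := swap (fun v x => S G v x) (q ^ 2) (by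
    intro x
    have hsub : Finset.univ.filter (fun v => S G v x) ⊆ (N G x).biUnion (fun w => N G w) := by
      intro v hv
      simp only [Finset.mem_filter, Finset.mem_univ, true_and] at hv
      obtain ⟨-, w, h1, h2⟩ := hv
      rw [Finset.mem_biUnion]
      exact ⟨w, by simp only [N, Finset.mem_filter, Finset.mem_univ, true_and]; exact h2.symm,
        by simp only [N, Finset.mem_filter, Finset.mem_univ, true_and]; exact h1.symm⟩
    calc _ ≤ _ := Finset.card_le_card hsub
      _ ≤ (N G x).card * q := Finset.card_biUnion_le_card_mul _ _ _ (fun w _ => (hG.deg w).le)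
      _ = q ^ 2 := by rw [hG.deg, sq])
  have hsum : ∑ v : V, ((T + 1) * (Finset.univ.filter (fun i => Near G v (c i))).card +
      (Finset.univ.filter (fun i => S G v (c i))).card) < ∑ _v : V, (T + 1) := by
    rw [Finset.sum_add_distrib, ← Finset.mul_sum]
    simp only [Finset.sum_const, Finset.card_univ, smul_eq_mul]
    have h3 := Nat.add_le_add (Nat.mul_le_mul_left (T + 1) hs1) hs2
    rw [mul_comm (Fintype.card V)]
    exact lt_of_le_of_lt h3 hcount
  obtain ⟨v, -, hv⟩ := Finset.exists_lt_of_sum_lt hsum
  refine ⟨v, ?_, ?_⟩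
  · intro i
    by_contra hcon
    have hpos : 0 < (Finset.univ.filter (fun i => Near G v (c i))).card := by
      rw [Finset.card_pos]
      refine ⟨i, Finset.mem_filter.2 ⟨Finset.mem_univ _, ?_⟩⟩
      unfold Near
      tauto
    have : (T + 1) * 1 ≤ (T + 1) * (Finset.univ.filter (fun i => Near G v (c i))).card :=
      Nat.mul_le_mul_left _ hpos
    omega
  · omega

/-- The robber evades `m` lazy cops. -/
theorem not_lazyCopsWin {q : ℕ} {side : V → Bool} (hG : Nice G q side) {m T : ℕ}
    (hm : m < T * (q - (T + 1)))
    (hcount : (T + 1) * (m * (q + 1)) + m * q ^ 2 < (T + 1) * Fintype.card V) :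
    ¬ LazyCopsWin G m := by
  rintro ⟨σ, hσ, hwin⟩
  -- the play
  obtain ⟨v₀, hv₀⟩ := start hG hcount (σ [])
  have hstep : ∀ p : {p : List V × V // Inv G T (σ p.1) p.2},
      ∃ u, G.Adj p.1.2 u ∧ Inv G T (σ (p.1.1 ++ [p.1.2])) u := fun p =>
    (step hG hm p.2 (hσ p.1.1 p.1.2)).2
  choose nxt hnxt using hstep
  let s : ℕ → {p : List V × V // Inv G T (σ p.1) p.2} := fun t =>
    Nat.rec ⟨([], v₀), hv₀⟩ (fun _ p => ⟨(p.1.1 ++ [p.1.2], nxt p), (hnxt p).2⟩) t
  have hs0 : s 0 = ⟨([], v₀), hv₀⟩ := rfl
  have hs1 : ∀ t, s (t + 1) = ⟨((s t).1.1 ++ [(s t).1.2], nxt (s t)), (hnxt (s t)).2⟩ :=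
    fun t => rfl
  let r : ℕ → V := fun t => (s t).1.2
  have hlist : ∀ t, (s t).1.1 = (List.range t).map r := by
    intro t
    induction t with
    | zero => rw [hs0]; rfl
    | succ t ih =>
      rw [hs1, List.range_succ, List.map_append]
      simp only [ih]
      rfl
  obtain ⟨t, i, ht⟩ := hwin r (fun t => Or.inr (by
    show G.Adj (s t).1.2 (s (t + 1)).1.2
    rw [hs1]
    exact (hnxt (s t)).1))
  have hinv : Inv G T (σ ((List.range t).map r)) (r t) := by
    rw [← hlist]; exact (s t).2
  rcases ht with ht | ht
  · exact (hinv.1 i).1 ht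
  · refine (step hG hm hinv ?_).1 i ht
    rw [List.range_succ, List.map_append]
    exact hσ _ _

end Strategy

/-! ### The graph -/

section Graph

variable (F : Type) [Field F]

/-- incidence of points and lines -/
def Inc {F : Type} [Field F] (p l : F × F × F) : Prop :=
  p.2.1 = l.2.1 + l.1 * p.1 ∧ p.2.2 = l.2.2 + l.1 ^ 2 * p.1

/-- points and lines -/
abbrev W := (F × F × F) ⊕ (F × F × F)

/-- adjacency in the incidence graph -/
def adj {F : Type} [Field F] : W F → W F → Prop
  | .inl p, .inr l => Inc p l
  | .inr l, .inl p => Inc p l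
  | _, _ => False

/-- the incidence graph -/
def graph : SimpleGraph (W F) where
  Adj := adj
  symm := by
    constructor
    rintro (a | a) (b | b) h <;> exact h
  loopless := ⟨by rintro (a | a) h <;> exact h⟩

variable {F}

lemma inc_unique {p p' l l' : F × F × F} (h1 : Inc p l) (h2 : Inc p l') (h3 : Inc p' l)
    (h4 : Inc p' l') : p = p' ∨ l = l' := by
  obtain ⟨x, y, z⟩ := p
  obtain ⟨x', y', z'⟩ := p'
  obtain ⟨t, a, b⟩ := l
  obtain ⟨t', a', b'⟩ := l'
  simp only [Inc] at h1 h2 h3 h4
  by_cases hx : x = x'
  · left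
    subst hx
    simp only [Prod.mk.injEq, true_and]
    exact ⟨by rw [h1.1, h3.1], by rw [h1.2, h3.2]⟩
  · right
    have ht : (t - t') * (x - x') = 0 := by
      linear_combination h2.1 - h1.1 + h3.1 - h4.1
    have ht' : t = t' := by
      rcases mul_eq_zero.1 ht with h | h
      · exact sub_eq_zero.1 h
      · exact absurd (sub_eq_zero.1 h) hx
    subst ht'
    simp only [Prod.mk.injEq, true_and]
    exact ⟨by linear_combination h2.1 - h1.1, by linear_combination h2.2 - h1.2⟩

/-- there are no triangles -/
lemma inc_triangle {A B C k l m : F × F × F} (hAB : A ≠ B) (hBC : B ≠ C) (hCA : C ≠ A)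
    (hkl : k ≠ l) (hkm : k ≠ m) (h1 : Inc A k) (h2 : Inc B k) (h3 : Inc B l)
    (h4 : Inc C l) (h5 : Inc C m) (h6 : Inc A m) : False := by
  obtain ⟨xA, yA, zA⟩ := A
  obtain ⟨xB, yB, zB⟩ := B
  obtain ⟨xC, yC, zC⟩ := C
  obtain ⟨t1, a1, b1⟩ := k
  obtain ⟨t2, a2, b2⟩ := l
  obtain ⟨t3, a3, b3⟩ := m
  simp only [Inc] at h1 h2 h3 h4 h5 h6
  have key : (xA - xB) * ((t1 - t2) * (t1 - t3)) = 0 := by
    have e1 : t1 * (xA - xB) = yA - yB := by linear_combination h2.1 - h1.1
    have e2 : t2 * (xB - xC) = yB - yC := by linear_combination h4.1 - h3.1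
    have e3 : t3 * (xC - xA) = yC - yA := by linear_combination h6.1 - h5.1
    have f1 : t1 ^ 2 * (xA - xB) = zA - zB := by linear_combination h2.2 - h1.2
    have f2 : t2 ^ 2 * (xB - xC) = zB - zC := by linear_combination h4.2 - h3.2
    have f3 : t3 ^ 2 * (xC - xA) = zC - zA := by linear_combination h6.2 - h5.2
    linear_combination f1 + f2 + f3 - (t2 + t3) * (e1 + e2 + e3)
  rcases mul_eq_zero.1 key with h | h
  · have hx := sub_eq_zero.1 h
    subst hx
    apply hAB
    simp only [Prod.mk.injEq, true_and]
    exact ⟨by rw [h1.1, h2.1], by rw [h1.2, h2.2]⟩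
  · rcases mul_eq_zero.1 h with h | h
    · have ht := sub_eq_zero.1 h
      subst ht
      apply hkl
      simp only [Prod.mk.injEq, true_and]
      exact ⟨by linear_combination h3.1 - h2.1, by linear_combination h3.2 - h2.2⟩
    · have ht := sub_eq_zero.1 h
      subst ht
      apply hkm
      simp only [Prod.mk.injEq, true_and]
      exact ⟨by linear_combination h6.1 - h1.1, by linear_combination h6.2 - h1.2⟩

/-- the two colour classes -/
def side : W F → Bool
  | .inl _ => true
  | .inr _ => false

lemma nice [Fintype F] : Nice (graph F) (Fintype.card F) side where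
  side := by
    rintro (a | a) (b | b) h
    · exact absurd h (fun h => h)
    · simp [side]
    · simp [side]
    · exact absurd h (fun h => h)
  h4 := by
    rintro (v | v) (w | w) (u | u) (u' | u') h1 h2 h3 h4 hne <;>
      first
      | exact absurd h1 (fun h => h)
      | exact absurd h2 (fun h => h)
      | exact absurd h3 (fun h => h)
      | skip
    · rcases inc_unique h1 h2 h3 h4 with h | h
      · exact absurd (congrArg _ h) hne
      · exact congrArg _ h
    · rcases inc_unique h1 h3 h2 h4 with h | h
      · exact congrArg _ h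
      · exact absurd (congrArg _ h) hne
  h6 := by
    rintro (v | v) (w | w) (w' | w') (u | u) (u' | u') (x | x) n1 n2 n3 n4 n5 n6 h1 h2 h3 h4 h5 h6
      <;>
      first
      | exact absurd h1 (fun h => h)
      | exact absurd h2 (fun h => h)
      | exact absurd h3 (fun h => h)
      | exact absurd h4 (fun h => h)
      | exact absurd h5 (fun h => h)
      | skip
    · exact inc_triangle (A := v) (B := w) (C := w') (k := u) (l := x) (m := u')
        (fun h => n1 (congrArg _ h)) (fun h => n3 (congrArg _ h)) (fun h => n2 (congrArg _ h.symm))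
        (fun h => n5 (congrArg _ h)) (fun h => n4 (congrArg _ h)) h1 h2 h3 h4 h5 h6
    · exact inc_triangle (A := u) (B := x) (C := u') (k := w) (l := w') (m := v)
        (fun h => n5 (congrArg _ h)) (fun h => n6 (congrArg _ h.symm))
        (fun h => n4 (congrArg _ h.symm))
        (fun h => n3 (congrArg _ h)) (fun h => n1 (congrArg _ h.symm)) h2 h3 h4 h5 h6 h1
  deg := by
    classical
    rintro (⟨x, y, z⟩ | ⟨t, a, b⟩)
    · have : N (graph F) (Sum.inl (x, y, z)) = Finset.univ.image
          (fun t : F => (Sum.inr (t, y - t * x, z - t ^ 2 * x) : W F)) := by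
        ext u
        simp only [N, Finset.mem_filter, Finset.mem_univ, true_and, Finset.mem_image]
        rcases u with u | ⟨t, a, b⟩
        · constructor
          · intro h; exact absurd h (fun h => h)
          · rintro ⟨t, ht⟩; cases ht
        · constructor
          · intro h
            have h' : Inc (x, y, z) (t, a, b) := h
            simp only [Inc] at h'
            refine ⟨t, ?_⟩
            rw [h'.1, h'.2]
            congr 3 <;> ring
          · rintro ⟨t', ht⟩
            simp only [Sum.inr.injEq, Prod.mk.injEq] at ht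
            obtain ⟨rfl, rfl, rfl⟩ := ht
            show Inc _ _
            simp only [Inc]
            constructor <;> ring
      rw [this, Finset.card_image_of_injective, Finset.card_univ]
      intro t t' h
      simp only [Sum.inr.injEq, Prod.mk.injEq] at h
      exact h.1
    · have : N (graph F) (Sum.inr (t, a, b)) = Finset.univ.image
          (fun x : F => (Sum.inl (x, a + t * x, b + t ^ 2 * x) : W F)) := by
        ext u
        simp only [N, Finset.mem_filter, Finset.mem_univ, true_and, Finset.mem_image]
        rcases u with ⟨x, y, z⟩ | u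
        · constructor
          · intro h
            have h' : Inc (x, y, z) (t, a, b) := h
            simp only [Inc] at h'
            exact ⟨x, by rw [h'.1, h'.2]⟩
          · rintro ⟨x', hx⟩
            simp only [Sum.inl.injEq, Prod.mk.injEq] at hx
            obtain ⟨rfl, rfl, rfl⟩ := hx
            show Inc _ _
            simp only [Inc]
            exact ⟨trivial, trivial⟩
        · constructor
          · intro h; exact absurd h (fun h => h)
          · rintro ⟨x', hx⟩; cases hx
      rw [this, Finset.card_image_of_injective, Finset.card_univ]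
      intro x x' h
      simp only [Sum.inl.injEq, Prod.mk.injEq] at h
      exact h.1

/-- moving along a line -/
lemma reach_line (x y z t s : F) : (graph F).Reachable (Sum.inl (x, y, z))
    (Sum.inl (x + s, y + t * s, z + t ^ 2 * s)) := by
  have h1 : (graph F).Adj (Sum.inl (x, y, z)) (Sum.inr (t, y - t * x, z - t ^ 2 * x)) := by
    show Inc _ _
    simp only [Inc]
    constructor <;> ring
  have h2 : (graph F).Adj (Sum.inr (t, y - t * x, z - t ^ 2 * x))
      (Sum.inl (x + s, y + t * s, z + t ^ 2 * s)) := by
    show Inc _ _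
    simp only [Inc]
    constructor <;> ring
  exact h1.reachable.trans h2.reachable

lemma connected (h2 : (2 : F) ≠ 0) : (graph F).Connected := by
  have hpt : ∀ x y z : F, (graph F).Reachable (Sum.inl (x, y, z)) (Sum.inl (0, 0, 0)) := by
    intro x y z
    have a1 := reach_line x y z 1 (-(y + z) / 2)
    have a2 := reach_line (x + -(y + z) / 2) (y + 1 * (-(y + z) / 2)) (z + 1 ^ 2 * (-(y + z) / 2))
      (-1) ((y - z) / 2)
    have a3 := reach_line (x + -(y + z) / 2 + (y - z) / 2)
      (y + 1 * (-(y + z) / 2) + -1 * ((y - z) / 2))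
      (z + 1 ^ 2 * (-(y + z) / 2) + (-1) ^ 2 * ((y - z) / 2)) 0
      (-(x + -(y + z) / 2 + (y - z) / 2))
    have a4 := (a1.trans a2).trans a3
    have e1 : x + -(y + z) / 2 + (y - z) / 2 + -(x + -(y + z) / 2 + (y - z) / 2) = 0 := by ring
    have e2 : y + 1 * (-(y + z) / 2) + -1 * ((y - z) / 2) +
        0 * -(x + -(y + z) / 2 + (y - z) / 2) = 0 := by
      field_simp
      ring
    have e3 : z + 1 ^ 2 * (-(y + z) / 2) + (-1) ^ 2 * ((y - z) / 2) +
        0 ^ 2 * -(x + -(y + z) / 2 + (y - z) / 2) = 0 := by
      field_simp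
      ring
    rw [e1, e2, e3] at a4
    exact a4
  have hall : ∀ w : W F, (graph F).Reachable w (Sum.inl (0, 0, 0)) := by
    rintro (⟨x, y, z⟩ | ⟨t, a, b⟩)
    · exact hpt x y z
    · have h : (graph F).Adj (Sum.inr (t, a, b)) (Sum.inl (0, a, b)) := by
        show Inc _ _
        simp only [Inc]
        constructor <;> ring
      exact h.reachable.trans (hpt 0 a b)
  have : Nonempty (W F) := ⟨Sum.inl (0, 0, 0)⟩
  exact ⟨fun v w => (hall v).trans (hall w).symm⟩

end Graph

/-! ### The result -/

lemma lazyCopsWin_iso {V V' : Type} {G : SimpleGraph V} {G' : SimpleGraph V'} (e : G ≃g G')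
    {m : ℕ} (h : LazyCopsWin G m) : LazyCopsWin G' m := by
  obtain ⟨σ, hσ, hwin⟩ := h
  refine ⟨fun h i => e (σ (h.map e.symm) i), ?_, ?_⟩
  · intro h x
    have hx : (h ++ [x]).map e.symm = h.map e.symm ++ [e.symm x] := by simp
    rcases hσ (h.map e.symm) (e.symm x) with h1 | ⟨i, h1, h2⟩
    · left
      funext i
      show e (σ ((h ++ [x]).map e.symm) i) = e (σ (h.map e.symm) i)
      rw [hx, h1]
    · right
      refine ⟨i, ?_, fun j hj => ?_⟩
      · show G'.Adj (e (σ (h.map e.symm) i)) (e (σ ((h ++ [x]).map e.symm) i))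
        rw [hx, e.map_adj_iff]
        exact h1
      · show e (σ ((h ++ [x]).map e.symm) j) = e (σ (h.map e.symm) j)
        rw [hx, h2 j hj]
  · intro r hr
    obtain ⟨t, i, ht⟩ := hwin (fun t => e.symm (r t)) (by
      intro t
      rcases hr t with h | h
      · exact Or.inl (congrArg e.symm h)
      · exact Or.inr (e.symm.map_adj_iff.2 h))
    refine ⟨t, i, ?_⟩
    simp only [List.map_map]
    rcases ht with h | h
    · left
      have := congrArg e h
      rw [e.apply_symm_apply] at this
      exact this
    · right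
      have := congrArg e h
      rw [e.apply_symm_apply] at this
      exact this

lemma two_ne : (2 : ZMod 37) ≠ 0 := by decide

/-- **Disproof.** There are `k ≥ 1` (namely `k = 319`) and a connected graph `G` on `n` vertices
(namely `n = 101306 = 2 * 37 ^ 3`) with maximum degree at least `n - k ^ 2` such that the lazy cop
number of `G` is at least `k + 1`. Even `n < k ^ 2` holds. -/
theorem result : ∃ (k n : ℕ) (G : SimpleGraph (Fin n)) (_ : DecidableRel G.Adj),
    1 ≤ k ∧ G.Connected ∧ n < k ^ 2 ∧ n ≤ G.maxDegree + k ^ 2 ∧ k + 1 ≤ lazyCopNumber G := by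
  classical
  have : Fact (Nat.Prime 37) := ⟨by norm_num⟩
  have hcard : Fintype.card (W (ZMod 37)) = 101306 := by
    simp [ZMod.card]
  let e : W (ZMod 37) ≃ Fin 101306 := Fintype.equivFinOfCardEq hcard
  let G : SimpleGraph (Fin 101306) := (graph (ZMod 37)).map e.toEmbedding
  let φ : graph (ZMod 37) ≃g G := SimpleGraph.Iso.map e _
  have hno : ∀ m ≤ 319, ¬ LazyCopsWin G m := by
    intro m hm h
    have h1 := lazyCopsWin_iso φ.symm h
    refine not_lazyCopsWin (T := 18) (nice (F := ZMod 37)) ?_ ?_ h1
    · rw [ZMod.card]; omega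
    · rw [ZMod.card, hcard]; omega
  refine ⟨319, 101306, G, Classical.decRel _, by norm_num, ?_, by norm_num, ?_, ?_⟩
  · exact (SimpleGraph.Iso.connected_iff φ).1 (connected two_ne)
  · exact le_trans (by norm_num) (Nat.le_add_left _ _)
  · have hne : {m | 1 ≤ m ∧ LazyCopsWin G m}.Nonempty :=
      ⟨101306, by norm_num, lazyCopsWin_card _ G⟩
    have hmem := Nat.sInf_mem hne
    by_contra hlt
    exact hno _ (by unfold lazyCopNumber at hlt; omega) hmem.2

end Pool.Agent.Results.MP_9f93d5_co.Disproof
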